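import Mathlib

/-! `K_{3,3}` has no drawing in the plane in which disjoint edges do not meet: a proof by logarithms
on squares. -/

set_option autoImplicit false

namespace Pool.Agent.N489.K33

open Complex

theorem exists_log2 (g : ℝ × ℝ → ℂ) (hg : Continuous g) (h0 : ∀ x, g x ≠ 0) :
    ∃ f : ℝ × ℝ → ℂ, Continuous f ∧ ∀ x, exp (f x) = g x := by
  obtain ⟨F, ⟨-, hF⟩, -⟩ := isCoveringMapOn_exp.existsUnique_continuousMap_lifts
    (⟨g, hg⟩ : C(ℝ × ℝ, ℂ)) (a₀ := (0, 0)) (e₀ := log (g (0, 0))) (exp_log (h0 _))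
    (fun a => h0 a)
  exact ⟨F, F.continuous, fun x => congrFun hF x⟩

theorem exists_log1 (g : ℝ → ℂ) (hg : Continuous g) (h0 : ∀ x, g x ≠ 0) :
    ∃ f : ℝ → ℂ, Continuous f ∧ ∀ x, exp (f x) = g x := by
  obtain ⟨f, hf, h⟩ := exists_log2 (fun x => g x.1) (by fun_prop) (fun x => h0 _)
  exact ⟨fun s => f (s, 0), by fun_prop, fun x => h _⟩

theorem chg_eq (f₁ f₂ : ℝ → ℂ) (h₁ : Continuous f₁) (h₂ : Continuous f₂) (c : ℂ)
    (h : ∀ x, exp (f₁ x) = c * exp (f₂ x)) : f₁ 1 - f₁ 0 = f₂ 1 - f₂ 0 := by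
  obtain ⟨F, -, hF⟩ := isCoveringMapOn_exp.existsUnique_continuousMap_lifts
    (⟨fun x => exp (f₁ x), by fun_prop⟩ : C(ℝ, ℂ)) (a₀ := 0) (e₀ := f₁ 0) rfl
    (fun a => exp_ne_zero _)
  have e1 := hF ⟨f₁, h₁⟩ ⟨rfl, rfl⟩
  have e2 := hF ⟨fun x => f₂ x + (f₁ 0 - f₂ 0), by fun_prop⟩ ⟨by simp, by
    funext x
    show exp (f₂ x + (f₁ 0 - f₂ 0)) = exp (f₁ x)
    rw [exp_add, exp_sub, h 0, h x]
    have := exp_ne_zero (f₂ 0)
    field_simp⟩
  have e3 := congrArg (fun G : C(ℝ, ℂ) => G 1) (e1.trans e2.symm)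
  have e4 : f₁ 1 = f₂ 1 + (f₁ 0 - f₂ 0) := e3
  rw [e4]
  ring

/-- difference of logarithms -/
theorem int_of_exp (a b : ℂ) (h : exp a = exp b) : ∃ n : ℤ, a = b + 2 * Real.pi * I * n := by
  obtain ⟨n, hn⟩ := exp_eq_exp_iff_exists_int.1 h
  exact ⟨n, by rw [hn]; ring⟩

theorem arith (nA nB : Fin 3 → Fin 3 → Fin 3 → ℤ)
    (h1 : ∀ i k, i < k → ∀ j l, j < l →
      nA i j k + nB k l j - nA k l i - nB i j l = -1)
    (h2 : ∀ i k, i < k → ∀ j l, l < j →
      nA i j k + nB k l j - nA k l i - nB i j l = 0) : False := by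
  have a1 := h1 0 1 (by decide) 0 1 (by decide)
  have a2 := h1 0 1 (by decide) 0 2 (by decide)
  have a3 := h1 0 1 (by decide) 1 2 (by decide)
  have a4 := h2 0 1 (by decide) 1 0 (by decide)
  have a5 := h2 0 1 (by decide) 2 0 (by decide)
  have a6 := h2 0 1 (by decide) 2 1 (by decide)
  have b1 := h1 0 2 (by decide) 0 1 (by decide)
  have b2 := h1 0 2 (by decide) 0 2 (by decide)
  have b3 := h1 0 2 (by decide) 1 2 (by decide)
  have b4 := h2 0 2 (by decide) 1 0 (by decide)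
  have b5 := h2 0 2 (by decide) 2 0 (by decide)
  have b6 := h2 0 2 (by decide) 2 1 (by decide)
  have c1 := h1 1 2 (by decide) 0 1 (by decide)
  have c2 := h1 1 2 (by decide) 0 2 (by decide)
  have c3 := h1 1 2 (by decide) 1 2 (by decide)
  have c4 := h2 1 2 (by decide) 1 0 (by decide)
  have c5 := h2 1 2 (by decide) 2 0 (by decide)
  have c6 := h2 1 2 (by decide) 2 1 (by decide)
  omega


/-- **`K_{3,3}` is not planar**, in the form: there are no six points and nine paths joining the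
points `p i` and `q j` such that the paths of disjoint edges are disjoint. -/
theorem no_K33 (p q : Fin 3 → ℂ) (γ : Fin 3 → Fin 3 → ℝ → ℂ) (hγ : ∀ i j, Continuous (γ i j))
    (h0 : ∀ i j, γ i j 0 = p i) (h1 : ∀ i j, γ i j 1 = q j)
    (hd : ∀ i j k l, i ≠ k → j ≠ l → ∀ s t, γ i j s ≠ γ k l t) : False := by
  have ex : ∀ j : Fin 3, ∃ l, l ≠ j := by decide
  have hA0 : ∀ i j k, i ≠ k → ∀ s, γ i j s - p k ≠ 0 := by
    intro i j k hik s
    obtain ⟨l, hl⟩ := ex j
    have := hd i j k l hik hl.symm s 0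
    rw [h0] at this
    exact sub_ne_zero.2 this
  have hB0 : ∀ i j l, j ≠ l → ∀ s, γ i j s - q l ≠ 0 := by
    intro i j l hjl s
    obtain ⟨k, hk⟩ := ex i
    have := hd i j k l hk.symm hjl s 1
    rw [h1] at this
    exact sub_ne_zero.2 this
  have hpp : ∀ i k, i ≠ k → p i - p k ≠ 0 := fun i k hik => by
    have := hA0 i 0 k hik 0
    rwa [h0] at this
  have hqq : ∀ j l, j ≠ l → q j - q l ≠ 0 := fun j l hjl => by
    have := hB0 0 j l hjl 1
    rwa [h1] at this
  have hqp : ∀ i j, q j - p i ≠ 0 := fun i j => by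
    obtain ⟨k, hk⟩ := ex i
    have := hA0 k j i hk 1
    rwa [h1] at this
  have hLA : ∀ i j k, ∃ f : ℝ → ℂ, Continuous f ∧ (i ≠ k → ∀ s, exp (f s) = γ i j s - p k) := by
    intro i j k
    by_cases hik : i ≠ k
    · obtain ⟨f, hf, h⟩ := exists_log1 (fun s => γ i j s - p k)
        ((hγ i j).sub continuous_const) (hA0 i j k hik)
      exact ⟨f, hf, fun _ => h⟩
    · exact ⟨fun _ => 0, continuous_const, fun h => absurd h hik⟩
  have hLB : ∀ i j l, ∃ f : ℝ → ℂ, Continuous f ∧ (j ≠ l → ∀ s, exp (f s) = γ i j s - q l) := by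
    intro i j l
    by_cases hjl : j ≠ l
    · obtain ⟨f, hf, h⟩ := exists_log1 (fun s => γ i j s - q l)
        ((hγ i j).sub continuous_const) (hB0 i j l hjl)
      exact ⟨f, hf, fun _ => h⟩
    · exact ⟨fun _ => 0, continuous_const, fun h => absurd h hjl⟩
  choose LA hLAc hLA using hLA
  choose LB hLBc hLB using hLB
  -- square relation
  have sq : ∀ i j k l, i ≠ k → j ≠ l →
      (LA i j k 1 - LA i j k 0) + (LB k l j 1 - LB k l j 0) =
      (LA k l i 1 - LA k l i 0) + (LB i j l 1 - LB i j l 0) := by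
    intro i j k l hik hjl
    obtain ⟨L, hL, hLe⟩ := exists_log2 (fun x => γ i j x.1 - γ k l x.2)
      (((hγ i j).comp continuous_fst).sub ((hγ k l).comp continuous_snd))
      (fun x => sub_ne_zero.2 (hd i j k l hik hjl _ _))
    have e1 := chg_eq (fun s => L (s, 0)) (LA i j k) (by fun_prop) (hLAc _ _ _) 1 (by
      intro s
      rw [hLe, hLA _ _ _ hik, h0]; ring)
    have e2 := chg_eq (fun t => L (1, t)) (LB k l j) (by fun_prop) (hLBc _ _ _) (-1) (by
      intro s
      rw [hLe, hLB _ _ _ hjl.symm, h1]; ring)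
    have e3 := chg_eq (fun t => L (0, t)) (LA k l i) (by fun_prop) (hLAc _ _ _) (-1) (by
      intro s
      rw [hLe, hLA _ _ _ hik.symm, h0]; ring)
    have e4 := chg_eq (fun s => L (s, 1)) (LB i j l) (by fun_prop) (hLBc _ _ _) 1 (by
      intro s
      rw [hLe, hLB _ _ _ hjl, h1]; ring)
    rw [← e1, ← e2, ← e3, ← e4]
    ring
  -- logarithms of the differences of the vertices
  let α : Fin 3 → Fin 3 → ℂ := fun i k =>
    if i < k then log (p i - p k) else log (p k - p i) + Real.pi * I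
  let β : Fin 3 → Fin 3 → ℂ := fun i k =>
    if i < k then log (q i - q k) else log (q k - q i) + Real.pi * I
  let μ : Fin 3 → Fin 3 → ℂ := fun i j => log (q j - p i)
  have hα : ∀ i k, i ≠ k → exp (α i k) = p i - p k := by
    intro i k hik
    by_cases h : i < k
    · simp only [α, h, if_true]
      exact exp_log (hpp i k hik)
    · simp only [α, h, if_false]
      rw [exp_add, exp_log (hpp k i hik.symm), exp_pi_mul_I]
      ring
  have hβ : ∀ i k, i ≠ k → exp (β i k) = q i - q k := by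
    intro i k hik
    by_cases h : i < k
    · simp only [β, h, if_true]
      exact exp_log (hqq i k hik)
    · simp only [β, h, if_false]
      rw [exp_add, exp_log (hqq k i hik.symm), exp_pi_mul_I]
      ring
  have hμ : ∀ i j, exp (μ i j) = q j - p i := fun i j => exp_log (hqp i j)
  have hαs : ∀ i k, i < k → α k i = α i k + Real.pi * I := by
    intro i k hik
    simp only [α, hik, if_true, not_lt.2 hik.le, if_false]
  have hβs : ∀ i k, i < k → β k i = β i k + Real.pi * I := by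
    intro i k hik
    simp only [β, hik, if_true, not_lt.2 hik.le, if_false]
  have hnA : ∀ i j k, ∃ n : ℤ, i ≠ k →
      LA i j k 1 - LA i j k 0 = μ k j - α i k + 2 * Real.pi * I * n := by
    intro i j k
    by_cases hik : i ≠ k
    · obtain ⟨n, hn⟩ := int_of_exp (LA i j k 1 - LA i j k 0) (μ k j - α i k) (by
        rw [exp_sub, exp_sub, hLA _ _ _ hik, hLA _ _ _ hik, hμ, hα _ _ hik, h0, h1])
      exact ⟨n, fun _ => hn⟩
    · exact ⟨0, fun h => absurd h hik⟩
  have hnB : ∀ i j l, ∃ n : ℤ, j ≠ l →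
      LB i j l 1 - LB i j l 0 = β j l - (μ i l + Real.pi * I) + 2 * Real.pi * I * n := by
    intro i j l
    by_cases hjl : j ≠ l
    · obtain ⟨n, hn⟩ := int_of_exp (LB i j l 1 - LB i j l 0) (β j l - (μ i l + Real.pi * I)) (by
        rw [exp_sub, exp_sub, hLB _ _ _ hjl, hLB _ _ _ hjl, exp_add, hμ, hβ _ _ hjl, h0, h1,
          exp_pi_mul_I]
        congr 1
        ring)
      exact ⟨n, fun _ => hn⟩
    · exact ⟨0, fun h => absurd h hjl⟩
  choose nA hnA using hnA
  choose nB hnB using hnB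
  have hpi : (Real.pi : ℂ) * I ≠ 0 :=
    mul_ne_zero (by exact_mod_cast Real.pi_ne_zero) I_ne_zero
  refine arith nA nB ?_ ?_
  · intro i k hik j l hjl
    have h := sq i j k l hik.ne hjl.ne
    rw [hnA _ _ _ hik.ne, hnA _ _ _ hik.ne', hnB _ _ _ hjl.ne, hnB _ _ _ hjl.ne', hαs i k hik,
      hβs j l hjl] at h
    have h3 : (Real.pi : ℂ) * I * (2 * (((nA i j k + nB k l j - nA k l i - nB i j l + 1 : ℤ)) : ℂ))
        = 0 := by
      push_cast
      linear_combination h
    have h4 := (mul_eq_zero.1 h3).resolve_left hpi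
    have h5 := (mul_eq_zero.1 h4).resolve_left two_ne_zero
    have h6 : (nA i j k + nB k l j - nA k l i - nB i j l + 1 : ℤ) = 0 := by exact_mod_cast h5
    omega
  · intro i k hik j l hjl
    have h := sq i j k l hik.ne hjl.ne'
    rw [hnA _ _ _ hik.ne, hnA _ _ _ hik.ne', hnB _ _ _ hjl.ne, hnB _ _ _ hjl.ne', hαs i k hik,
      hβs l j hjl] at h
    have h3 : (Real.pi : ℂ) * I * (2 * (((nA i j k + nB k l j - nA k l i - nB i j l : ℤ)) : ℂ))
        = 0 := by
      push_cast
      linear_combination h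
    have h4 := (mul_eq_zero.1 h3).resolve_left hpi
    have h5 := (mul_eq_zero.1 h4).resolve_left two_ne_zero
    have h6 : (nA i j k + nB k l j - nA k l i - nB i j l : ℤ) = 0 := by exact_mod_cast h5
    omega

end Pool.Agent.N489.K33
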