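import Mathlib

/-! The graph `K_{3,3}` as a continuum. -/

set_option autoImplicit false

namespace Pool.Agent.N489.K33

open Set

/-- the point of the edge `i j` with the parameter `t` -/
noncomputable def g (x : (Fin 3 × Fin 3) × unitInterval) : (Fin 3 → ℝ) × (Fin 3 → ℝ) :=
  (Pi.single x.1.1 (1 - (x.2 : ℝ)), Pi.single x.1.2 (x.2 : ℝ))

theorem continuous_g : Continuous g := by
  have h : ∀ e : Fin 3 × Fin 3, Continuous (fun t : unitInterval => g (e, t)) := by
    intro e
    refine Continuous.prodMk ?_ ?_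
    · exact (continuous_single (A := fun _ : Fin 3 => ℝ) e.1).comp (by fun_prop)
    · exact (continuous_single (A := fun _ : Fin 3 => ℝ) e.2).comp (by fun_prop)
  rw [continuous_iff_continuousAt]
  rintro ⟨e, t⟩
  have h2 : ContinuousAt (fun x : (Fin 3 × Fin 3) × unitInterval => g (e, x.2)) (e, t) :=
    ((h e).comp continuous_snd).continuousAt
  refine h2.congr ?_
  have h3 : {x : (Fin 3 × Fin 3) × unitInterval | x.1 = e} ∈ nhds (e, t) :=
    (continuous_fst.isOpen_preimage {e} (isOpen_discrete _)).mem_nhds rfl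
  filter_upwards [h3] with x hx
  have hx' : x.1 = e := hx
  rw [← hx']

/-- the space `K_{3,3}` -/
abbrev Y : Type := ↥(Set.range g)

instance : CompactSpace Y := isCompact_iff_compactSpace.1 (isCompact_range continuous_g)

/-- the parametrisation -/
noncomputable def G (i j : Fin 3) (t : unitInterval) : Y := ⟨g ((i, j), t), mem_range_self _⟩

theorem continuous_G (i j : Fin 3) : Continuous (G i j) := by
  refine Continuous.subtype_mk ?_ _
  exact continuous_g.comp (by fun_prop)

theorem exists_G (y : Y) : ∃ i j t, y = G i j t := by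
  obtain ⟨_, ⟨⟨⟨i, j⟩, t⟩, rfl⟩⟩ := y
  exact ⟨i, j, t, rfl⟩

instance : LocallyConnectedSpace unitInterval :=
  (isQuotientMap_projIcc (a := (0 : ℝ)) (b := 1) (h := zero_le_one)).isCoinducing.locallyConnectedSpace

instance : LocallyConnectedSpace Y := by
  have h : Topology.IsQuotientMap (Set.rangeFactorization g) := by
    have hc : Continuous (Set.rangeFactorization g) := Continuous.subtype_mk continuous_g _
    exact hc.isClosedMap.isQuotientMap hc Set.rangeFactorization_surjective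
  exact h.isCoinducing.locallyConnectedSpace

theorem G_zero (i j j' : Fin 3) : G i j 0 = G i j' 0 := by
  apply Subtype.ext
  simp [G, g]

theorem G_one (i i' j : Fin 3) : G i j 1 = G i' j 1 := by
  apply Subtype.ext
  simp [G, g]


/-- the coordinate on the edges -/
noncomputable def τ (y : Y) : ℝ := ∑ j, y.1.2 j

theorem continuous_τ : Continuous τ := by
  unfold τ
  fun_prop

theorem τ_G (i j : Fin 3) (t : unitInterval) : τ (G i j t) = t := by
  simp [τ, G, g]

/-- the function which is positive exactly on the open edge `i j` -/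
noncomputable def ψ (i j : Fin 3) (y : Y) : ℝ := y.1.1 i * y.1.2 j

theorem continuous_ψ (i j : Fin 3) : Continuous (ψ i j) := by
  unfold ψ
  fun_prop

theorem ψ_G (i j i' j' : Fin 3) (t : unitInterval) :
    ψ i j (G i' j' t) = if i = i' ∧ j = j' then (1 - (t : ℝ)) * t else 0 := by
  simp only [ψ, G, g, Pi.single_apply]
  by_cases h1 : i = i' <;> by_cases h2 : j = j' <;> simp [h1, h2]

theorem eq_of_ψ_pos {i j : Fin 3} {y : Y} (h : 0 < ψ i j y) :
    ∃ t : unitInterval, y = G i j t ∧ 0 < (t : ℝ) ∧ (t : ℝ) < 1 := by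
  obtain ⟨i', j', t, rfl⟩ := exists_G y
  rw [ψ_G] at h
  by_cases h1 : i = i' ∧ j = j'
  · obtain ⟨rfl, rfl⟩ := h1
    simp only [and_self, if_true] at h
    refine ⟨t, rfl, ?_, ?_⟩
    · rcases t.2.1.lt_or_eq with h2 | h2
      · exact h2
      · rw [← h2] at h; simp at h
    · rcases t.2.2.lt_or_eq with h2 | h2
      · exact h2
      · rw [h2] at h; simp at h
  · rw [if_neg h1] at h
    exact absurd h (lt_irrefl _)

theorem connected_edge (i j : Fin 3) : IsConnected (Set.range (G i j)) :=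
  isConnected_range (continuous_G i j)

instance : PreconnectedSpace Y := by
  have key : ∀ y : Y, ∃ s : Set Y, IsPreconnected s ∧ G 0 0 0 ∈ s ∧ y ∈ s := by
    intro y
    obtain ⟨i, j, t, rfl⟩ := exists_G y
    refine ⟨Set.range (G 0 0) ∪ Set.range (G i 0) ∪ Set.range (G i j), ?_, ?_, ?_⟩
    · have h1 : IsPreconnected (Set.range (G 0 0) ∪ Set.range (G i 0)) :=
        (connected_edge 0 0).isPreconnected.union (G 0 0 1) ⟨1, rfl⟩ ⟨1, G_one _ _ _⟩
          (connected_edge i 0).isPreconnected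
      exact h1.union (G i 0 0) (Or.inr ⟨0, rfl⟩) ⟨0, G_zero _ _ _⟩
        (connected_edge i j).isPreconnected
    · exact Or.inl (Or.inl ⟨0, rfl⟩)
    · exact Or.inr ⟨t, rfl⟩
  refine ⟨isPreconnected_of_forall (G 0 0 0) (fun y _ => ?_)⟩
  obtain ⟨s, h1, h2, h3⟩ := key y
  exact ⟨s, subset_univ _, h2, h3, h1⟩

instance : ConnectedSpace Y := { toNonempty := ⟨G 0 0 0⟩ }

instance : Nontrivial Y := ⟨⟨G 0 0 0, G 0 0 1, fun h => by
  have := congrArg τ h
  rw [τ_G, τ_G] at this
  norm_num at this⟩⟩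

/-- a nondegenerate connected set contains an open subset of an edge -/
theorem exists_open_subset (L : Set Y) (hL : IsPreconnected L) (hnt : L.Nontrivial) :
    ∃ U : Set Y, IsOpen U ∧ U.Nonempty ∧ U ⊆ L := by
  -- a point inside an edge
  have hinf := hL.infinite_of_nontrivial hnt
  have h1 : ∃ i j, ∃ y ∈ L, 0 < ψ i j y := by
    by_contra hcon
    push Not at hcon
    refine hinf ((Set.finite_range (fun e : (Fin 3 × Fin 3) × Bool =>
      G e.1.1 e.1.2 (if e.2 then 1 else 0))).subset ?_)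
    intro y hy
    obtain ⟨i, j, t, rfl⟩ := exists_G y
    have h2 := hcon i j _ hy
    rw [ψ_G] at h2
    simp only [and_self, if_true] at h2
    have h3 : (t : ℝ) = 0 ∨ (t : ℝ) = 1 := by
      have h4 : 0 ≤ (1 - (t : ℝ)) * t := mul_nonneg (by linarith [t.2.2]) t.2.1
      have h5 : (1 - (t : ℝ)) * t = 0 := le_antisymm h2 h4
      rcases mul_eq_zero.1 h5 with h6 | h6
      · right; linarith
      · left; exact h6
    rcases h3 with h3 | h3
    · refine ⟨((i, j), false), ?_⟩
      have : t = 0 := Subtype.ext h3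
      simp [this]
    · refine ⟨((i, j), true), ?_⟩
      have : t = 1 := Subtype.ext h3
      simp [this]
  obtain ⟨i, j, y, hy, hψ⟩ := h1
  obtain ⟨t, rfl, ht0, ht1⟩ := eq_of_ψ_pos hψ
  -- the open sets
  have hopen : ∀ a b : ℝ, IsOpen {y : Y | 0 < ψ i j y ∧ a < τ y ∧ τ y < b} := by
    intro a b
    refine (isOpen_lt continuous_const (continuous_ψ i j)).inter
      ((isOpen_lt continuous_const continuous_τ).inter (isOpen_lt continuous_τ continuous_const))
  have hsub : ∀ a b : ℝ, 0 ≤ a → a < b → b ≤ 1 →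
      (∀ s : unitInterval, a < (s : ℝ) → (s : ℝ) < b → G i j s ∈ L) →
      ∃ U : Set Y, IsOpen U ∧ U.Nonempty ∧ U ⊆ L := by
    intro a b ha hab hb h
    refine ⟨_, hopen a b, ⟨G i j ⟨(a + b) / 2, ⟨by linarith, by linarith⟩⟩, ?_, ?_, ?_⟩, ?_⟩
    · rw [ψ_G]
      simp only [and_self, if_true]
      exact mul_pos (by linarith) (by linarith)
    · rw [τ_G]; show a < (a + b) / 2; linarith
    · rw [τ_G]; show (a + b) / 2 < b; linarith
    · rintro y ⟨h1, h2, h3⟩
      obtain ⟨s, rfl, -, -⟩ := eq_of_ψ_pos h1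
      rw [τ_G] at h2 h3
      exact h s h2 h3
  by_cases hA : ∀ s : unitInterval, (t : ℝ) < s → (s : ℝ) < 1 → G i j s ∈ L
  · exact hsub t 1 t.2.1 ht1 le_rfl hA
  by_cases hB : ∀ s : unitInterval, (0 : ℝ) < s → (s : ℝ) < t → G i j s ∈ L
  · exact hsub 0 t le_rfl ht0 t.2.2 hB
  push Not at hA hB
  obtain ⟨t1, h11, h12, h13⟩ := hA
  obtain ⟨t2, h21, h22, h23⟩ := hB
  -- `L` is contained in the open arc between `t2` and `t1`
  have hLsub : L ⊆ {y : Y | 0 < ψ i j y ∧ (t2 : ℝ) < τ y ∧ τ y < t1} := by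
    have hclosed : IsClosed ((G i j) '' (Set.Icc t2 t1)) :=
      (isCompact_Icc.image (continuous_G i j)).isClosed
    have h3 := hL.subset_left_of_subset_union (hopen t2 t1) hclosed.isOpen_compl ?_ ?_ ?_
    · exact h3
    · rw [Set.disjoint_left]
      rintro y ⟨h4, h5, h6⟩ h7
      obtain ⟨s, rfl, -, -⟩ := eq_of_ψ_pos h4
      rw [τ_G] at h5 h6
      exact h7 ⟨s, ⟨h5.le, h6.le⟩, rfl⟩
    · intro y hy
      by_cases h4 : y ∈ (G i j) '' (Set.Icc t2 t1)
      · left
        obtain ⟨s, ⟨h5, h6⟩, rfl⟩ := h4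
        have h5' : t2 < s := lt_of_le_of_ne h5 (fun h => h23 (h ▸ hy))
        have h6' : s < t1 := lt_of_le_of_ne h6 (fun h => h13 (h ▸ hy))
        have h7 : (t2 : ℝ) < s := h5'
        have h8 : (s : ℝ) < t1 := h6'
        refine ⟨?_, ?_, ?_⟩
        · rw [ψ_G]
          simp only [and_self, if_true]
          exact mul_pos (by linarith) (by linarith)
        · rw [τ_G]; exact h7
        · rw [τ_G]; exact h8
      · exact Or.inr h4
    · refine ⟨_, hy, hψ, ?_, ?_⟩
      · rw [τ_G]; exact h22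
      · rw [τ_G]; exact h11
  obtain ⟨y', hy', hne⟩ := hnt.exists_ne (G i j t)
  obtain ⟨t', rfl, ht'0, ht'1⟩ := eq_of_ψ_pos (hLsub hy').1
  have hne' : (t' : ℝ) ≠ t := fun h => hne (by rw [Subtype.ext h])
  have himg : (τ '' L).OrdConnected := (hL.image τ continuous_τ.continuousOn).ordConnected
  have hfill : ∀ s : unitInterval, (s : ℝ) ∈ τ '' L → G i j s ∈ L := by
    rintro s ⟨z, hz, hzs⟩
    obtain ⟨s', rfl, -, -⟩ := eq_of_ψ_pos (hLsub hz).1
    rw [τ_G] at hzs
    rwa [Subtype.ext hzs] at hz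
  have m1 : (t : ℝ) ∈ τ '' L := ⟨_, hy, τ_G _ _ _⟩
  have m2 : (t' : ℝ) ∈ τ '' L := ⟨_, hy', τ_G _ _ _⟩
  rcases lt_or_gt_of_ne hne' with h | h
  · refine hsub t' t ht'0.le h t.2.2 (fun s h1 h2 => hfill s ?_)
    exact himg.out m2 m1 ⟨h1.le, h2.le⟩
  · refine hsub t t' ht0.le h t'.2.2 (fun s h1 h2 => hfill s ?_)
    exact himg.out m1 m2 ⟨h1.le, h2.le⟩

end Pool.Agent.N489.K33
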