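import Pool.Agent.N489.K33.Angle
import Pool.Agent.N489.K33.Space

/-! `K_{3,3}` is not the image of a plane continuum under a monotone open map. -/

set_option autoImplicit false

namespace Pool.Agent.N489.K33

open Set Metric
open scoped Pointwise

theorem preimage_preconnected {X Z : Type} [TopologicalSpace X] [TopologicalSpace Z] (f : X → Z)
    (hf : IsOpenMap f) (hs : Function.Surjective f) (hc : ∀ z, IsPreconnected (f ⁻¹' {z}))
    (C : Set Z) (hC : IsPreconnected C) : IsPreconnected (f ⁻¹' C) := by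
  rw [isPreconnected_iff_subset_of_disjoint]
  intro u v hu hv huv hdis
  have h1 : ∀ z ∈ C, z ∈ f '' u → z ∈ f '' v → False := by
    rintro z hz ⟨a, ha, rfl⟩ ⟨b, hb, hba⟩
    have h2 := hc (f a) u v hu hv ?_ ⟨a, rfl, ha⟩ ⟨b, hba, hb⟩
    · obtain ⟨w, hw, hwu, hwv⟩ := h2
      have hw' : f w = f a := hw
      have : w ∈ (f ⁻¹' C ∩ (u ∩ v)) := ⟨by show f w ∈ C; rw [hw']; exact hz, hwu, hwv⟩
      rw [hdis] at this
      exact this
    · intro w hw
      have hw' : f w = f a := hw
      exact huv (by show f w ∈ C; rw [hw']; exact hz)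
  have h3 : C ⊆ f '' u ∪ f '' v := by
    intro z hz
    obtain ⟨x, rfl⟩ := hs z
    rcases huv hz with h | h
    · exact Or.inl ⟨x, h, rfl⟩
    · exact Or.inr ⟨x, h, rfl⟩
  rcases isPreconnected_iff_subset_of_disjoint.1 hC (f '' u) (f '' v) (hf u hu) (hf v hv) h3 (by
    ext z
    simp only [mem_inter_iff, mem_empty_iff_false, iff_false, not_and]
    exact fun hz h4 h5 => h1 z hz h4 h5) with h | h
  · left
    intro x hx
    rcases huv hx with h4 | h4
    · exact h4
    · exact (h1 (f x) hx (h hx) ⟨x, h4, rfl⟩).elim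
  · right
    intro x hx
    rcases huv hx with h4 | h4
    · exact (h1 (f x) hx ⟨x, h4, rfl⟩ (h hx)).elim
    · exact h4

theorem G_ne {i j k l : Fin 3} (hik : i ≠ k) (hjl : j ≠ l) (s t : unitInterval) :
    G i j s ≠ G k l t := by
  intro h
  have h1 : s = t := by
    have := congrArg τ h
    rw [τ_G, τ_G] at this
    exact Subtype.ext this
  subst h1
  have h2 := congrArg (fun y : Y => y.1.1 i) h
  have h3 := congrArg (fun y : Y => y.1.2 j) h
  simp [G, g, hik] at h2
  simp [G, g, hjl] at h3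
  rw [h3] at h2
  simp at h2

theorem isConnected_thickening {E : Type} [NormedAddCommGroup E] [NormedSpace ℝ E] {P : Set E}
    (hP : IsConnected P) {δ : ℝ} (hδ : 0 < δ) : IsConnected (thickening δ P) := by
  have h : thickening δ P = P + ball 0 δ := (add_ball_zero (δ := δ) (s := P)).symm
  rw [h]
  have hb : IsConnected (ball (0 : E) δ) :=
    ⟨⟨0, mem_ball_self hδ⟩, (convex_ball 0 δ).isPreconnected⟩
  have h2 := (hP.prod hb).image (fun x : E × E => x.1 + x.2) (by fun_prop)
  rw [Set.add_image_prod] at h2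
  exact h2

theorem main (S : Set (EuclideanSpace ℝ (Fin 2))) (f : ↥S → Y) (hS : IsCompact S)
    (hf : Continuous f) (hfo : IsOpenMap f) (hfs : Function.Surjective f)
    (hc : ∀ y : Y, IsConnected (Subtype.val '' (f ⁻¹' {y}))) : False := by
  have : CompactSpace S := isCompact_iff_compactSpace.1 hS
  have hc' : ∀ y, IsPreconnected (f ⁻¹' {y}) := fun y =>
    (Topology.IsInducing.subtypeVal.isPreconnected_image).1 (hc y).isPreconnected
  let P : Fin 3 → Fin 3 → Set (EuclideanSpace ℝ (Fin 2)) := fun i j =>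
    Subtype.val '' (f ⁻¹' (Set.range (G i j)))
  have hPc : ∀ i j, IsCompact (P i j) := fun i j =>
    (((isCompact_range (continuous_G i j)).isClosed.preimage hf).isCompact).image
      continuous_subtype_val
  have hPconn : ∀ i j, IsConnected (P i j) := by
    intro i j
    obtain ⟨x, hx⟩ := hfs (G i j 0)
    refine ⟨⟨_, ⟨x, ⟨0, hx.symm⟩, rfl⟩⟩, ?_⟩
    exact (preimage_preconnected f hfo hfs hc' _ (connected_edge i j).isPreconnected).image _
      continuous_subtype_val.continuousOn
  have hPd : ∀ i j k l, i ≠ k → j ≠ l → Disjoint (P i j) (P k l) := by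
    intro i j k l hik hjl
    rw [Set.disjoint_left]
    rintro _ ⟨x, ⟨s, hs⟩, rfl⟩ ⟨y, ⟨t, ht⟩, hxy⟩
    have : y = x := Subtype.ext hxy
    subst this
    exact G_ne hik hjl s t (hs.trans ht.symm)
  have hδ : ∀ e : (Fin 3 × Fin 3) × (Fin 3 × Fin 3), ∃ δ : ℝ, 0 < δ ∧
      (e.1.1 ≠ e.2.1 → e.1.2 ≠ e.2.2 →
        Disjoint (thickening δ (P e.1.1 e.1.2)) (thickening δ (P e.2.1 e.2.2))) := by
    rintro ⟨⟨i, j⟩, ⟨k, l⟩⟩
    by_cases h : i ≠ k ∧ j ≠ l
    · obtain ⟨δ, h1, h2⟩ := (hPd i j k l h.1 h.2).exists_thickenings (hPc i j) (hPc k l).isClosed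
      exact ⟨δ, h1, fun _ _ => h2⟩
    · exact ⟨1, one_pos, fun h1 h2 => absurd ⟨h1, h2⟩ h⟩
  choose δ hδ0 hδ using hδ
  obtain ⟨e₀, he₀⟩ := Finite.exists_min δ
  have hU : ∀ i j k l, i ≠ k → j ≠ l →
      Disjoint (thickening (δ e₀) (P i j)) (thickening (δ e₀) (P k l)) := by
    intro i j k l hik hjl
    exact (hδ ((i, j), (k, l)) hik hjl).mono (thickening_mono (he₀ _) _)
      (thickening_mono (he₀ _) _)
  have hUp : ∀ i j, IsPathConnected (thickening (δ e₀) (P i j)) := fun i j =>
    (isOpen_thickening.isConnected_iff_isPathConnected).1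
      (isConnected_thickening (hPconn i j) (hδ0 _))
  choose p hp using fun i : Fin 3 => hfs (G i 0 0)
  choose q hq using fun j : Fin 3 => hfs (G 0 j 1)
  have hpP : ∀ i j, (p i).1 ∈ thickening (δ e₀) (P i j) := fun i j =>
    self_subset_thickening (hδ0 _) _ ⟨p i, ⟨0, by rw [hp]; exact G_zero _ _ _⟩, rfl⟩
  have hqP : ∀ i j, (q j).1 ∈ thickening (δ e₀) (P i j) := fun i j =>
    self_subset_thickening (hδ0 _) _ ⟨q j, ⟨1, by rw [hq]; exact G_one _ _ _⟩, rfl⟩
  have hJ := fun i j => (hUp i j).joinedIn _ (hpP i j) _ (hqP i j)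
  let φ := Complex.orthonormalBasisOneI.repr.symm
  have hmem : ∀ i j s, ((hJ i j).somePath.extend s) ∈ thickening (δ e₀) (P i j) := by
    intro i j s
    exact (hJ i j).somePath_mem _
  refine no_K33 (fun i => φ (p i).1) (fun j => φ (q j).1)
    (fun i j s => φ ((hJ i j).somePath.extend s)) ?_ ?_ ?_ ?_
  · intro i j
    exact φ.continuous.comp (hJ i j).somePath.continuous_extend
  · intro i j
    simp
  · intro i j
    simp
  · intro i j k l hik hjl s t hst
    have h1 := φ.injective hst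
    exact Set.disjoint_left.1 (hU i j k l hik hjl) (hmem i j s) (h1 ▸ hmem k l t)

end Pool.Agent.N489.K33
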